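import Mathlib
import Pool.Agent.Results.MP_69f3e4_an.PlanarDichotomy

/-!
# A minimal representation of a Cantorval with `x n < r (n + 1)` infinitely often

The sequence is `6/8, 5/8, 4/8, 6/64, 5/64, 4/64, ...`. The subsums of `6, 5, 4` form a complete set
of residues modulo 8, so the achievement set `E` has an interior point. Deleting infinitely many terms
gives a set of measure zero. The set `E` is a Cantorval because near the left end of a gap it looks
like `E` near its maximum.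
-/

set_option autoImplicit false

namespace Pool.Agent.Results.MP_61d686_an.MinimalCantorval

open Set Filter Topology MeasureTheory
open scoped Pointwise

/-- The set of all subsums of the series of `x` that use no index in `A`, that is, the achievement
set of the sequence obtained from `x` by deleting the terms with indices in `A`. -/
def achDel (x : ℕ → ℝ) (A : Set ℕ) : Set ℝ :=
  {s | ∃ e : ℕ → Bool, (∀ n ∈ A, e n = false) ∧ s = ∑' n, if e n = true then x n else 0}

/-- The achievement set of `x`: the set of all subsums. -/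
def ach (x : ℕ → ℝ) : Set ℝ := {s | ∃ e : ℕ → Bool, s = ∑' n, if e n = true then x n else 0}

/-- The tail `r n`, the sum of the `x k` with `k > n`. -/
noncomputable def tail (x : ℕ → ℝ) (n : ℕ) : ℝ := ∑' k, x (n + 1 + k)

/-- The union of the one-point components of `E`. -/
def onePoint (E : Set ℝ) : Set ℝ := {y | y ∈ E ∧ connectedComponentIn E y = {y}}

/-- A nonempty compact set that is the closure of its interior and such that both endpoints of every
nondegenerate component are accumulation points of one-point components. -/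
def IsCantorval (E : Set ℝ) : Prop :=
  E.Nonempty ∧ IsCompact E ∧ closure (interior E) = E ∧
    ∀ x ∈ E, ∀ a b : ℝ, a < b → connectedComponentIn E x = Icc a b →
      AccPt a (𝓟 (onePoint E)) ∧ AccPt b (𝓟 (onePoint E))

/-- Deleting infinitely many terms always changes the topological type of the achievement set. -/
def IsMinimal (x : ℕ → ℝ) : Prop := ∀ A : Set ℕ, A.Infinite → IsEmpty (achDel x A ≃ₜ ach x)

/-- The sequence `6/8, 5/8, 4/8, 6/64, 5/64, 4/64, ...`. -/
noncomputable def xs (n : ℕ) : ℝ :=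
  (if n % 3 = 0 then 6 else if n % 3 = 1 then 5 else 4) / 8 ^ (n / 3 + 1)

theorem xs_pos (n : ℕ) : 0 < xs n := by
  rw [xs]; split_ifs <;> positivity

theorem xs_add_three (n : ℕ) : xs (n + 3) = 8⁻¹ * xs n := by
  rw [xs, xs]
  have h1 : (n + 3) % 3 = n % 3 := by omega
  have h2 : (n + 3) / 3 = n / 3 + 1 := by omega
  rw [h1, h2, pow_succ (8 : ℝ) (n / 3 + 1)]
  split_ifs <;> field_simp

theorem xs_antitone : Antitone xs := by
  refine antitone_nat_of_succ_le fun n => ?_
  rw [xs, xs]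
  have h3 : n % 3 = 0 ∨ n % 3 = 1 ∨ n % 3 = 2 := by omega
  rcases h3 with h | h | h
  · have h1 : (n + 1) % 3 = 1 := by omega
    have h2 : (n + 1) / 3 = n / 3 := by omega
    rw [h1, h2, h]; norm_num
    gcongr; norm_num
  · have h1 : (n + 1) % 3 = 2 := by omega
    have h2 : (n + 1) / 3 = n / 3 := by omega
    rw [h1, h2, h]; norm_num
    gcongr; norm_num
  · have h1 : (n + 1) % 3 = 0 := by omega
    have h2 : (n + 1) / 3 = n / 3 + 1 := by omega
    rw [h1, h2, h, pow_succ (8 : ℝ) (n / 3 + 1)]; norm_num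
    rw [div_le_div_iff₀ (by positivity) (by positivity)]
    have : (0 : ℝ) < 8 ^ (n / 3 + 1) := by positivity
    nlinarith

theorem xs_block (k : ℕ) : xs (3 * k) = 6 / 8 ^ (k + 1) ∧ xs (3 * k + 1) = 5 / 8 ^ (k + 1) ∧
    xs (3 * k + 2) = 4 / 8 ^ (k + 1) := by
  refine ⟨?_, ?_, ?_⟩
  · rw [xs, show (3 * k) % 3 = 0 by omega, show (3 * k) / 3 = k by omega]; simp
  · rw [xs, show (3 * k + 1) % 3 = 1 by omega, show (3 * k + 1) / 3 = k by omega]; simp
  · rw [xs, show (3 * k + 2) % 3 = 2 by omega, show (3 * k + 2) / 3 = k by omega]; simp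

theorem xs_le (n : ℕ) : xs n ≤ 6 / 8 * (8⁻¹) ^ (n / 3) := by
  rw [xs, pow_succ]
  have : (0 : ℝ) < 8 ^ (n / 3) := by positivity
  rw [inv_pow]
  split_ifs
  · apply le_of_eq; field_simp
  · rw [div_le_iff₀ (by positivity)]; field_simp; norm_num
  · rw [div_le_iff₀ (by positivity)]; field_simp; norm_num

/-- Partial sums over full blocks. -/
theorem sum_block (K : ℕ) : ∑ n ∈ Finset.range (3 * K), xs n = 15 / 7 * (1 - (8⁻¹) ^ K) := by
  induction K with
  | zero => simp
  | succ K ih =>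
    rw [show 3 * (K + 1) = 3 * K + 1 + 1 + 1 by ring, Finset.sum_range_succ,
      Finset.sum_range_succ, Finset.sum_range_succ, ih, (xs_block K).1, (xs_block K).2.1,
      show 3 * K + 1 + 1 = 3 * K + 2 by ring, (xs_block K).2.2, inv_pow, inv_pow, pow_succ]
    have : (0 : ℝ) < 8 ^ K := by positivity
    field_simp
    ring

theorem xs_summable : Summable xs := by
  refine summable_of_sum_range_le (c := 15 / 7) (fun n => (xs_pos n).le) fun n => ?_
  calc ∑ i ∈ Finset.range n, xs i ≤ ∑ i ∈ Finset.range (3 * n), xs i := by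
        refine Finset.sum_le_sum_of_subset_of_nonneg ?_ fun i _ _ => (xs_pos i).le
        exact Finset.range_subset_range.2 (by omega)
    _ = 15 / 7 * (1 - (8⁻¹) ^ n) := sum_block n
    _ ≤ 15 / 7 := by
        have : (0 : ℝ) < (8⁻¹) ^ n := by positivity
        nlinarith

theorem xs_tsum : ∑' n, xs n = 15 / 7 := by
  have h1 := xs_summable.hasSum.tendsto_sum_nat
  have h2 : Tendsto (fun K : ℕ => 3 * K) atTop atTop :=
    tendsto_atTop_mono (fun n => (by omega : n ≤ 3 * n)) tendsto_id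
  have h3 := h1.comp h2
  have h4 : Tendsto (fun K : ℕ => (15 / 7 : ℝ) * (1 - (8⁻¹) ^ K)) atTop (𝓝 (15 / 7 * (1 - 0))) :=
    ((tendsto_pow_atTop_nhds_zero_of_lt_one (by norm_num) (by norm_num)).const_sub 1).const_mul _
  have h5 := tendsto_nhds_unique (h3.congr fun K => sum_block K) h4
  rw [h5]; norm_num

theorem xs_tail_block (K : ℕ) : ∑' n, xs (n + 3 * K) = (8⁻¹) ^ K * (15 / 7) := by
  induction K with
  | zero => simp [xs_tsum]
  | succ K ih =>
    have : (fun n => xs (n + 3 * (K + 1))) = fun n => 8⁻¹ * xs (n + 3 * K) := by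
      ext n
      rw [show n + 3 * (K + 1) = n + 3 * K + 3 by ring, xs_add_three]
    rw [this, tsum_mul_left, ih, pow_succ]
    ring

/-- The digits. -/
def D : Finset ℤ := {0, 4, 5, 6, 9, 10, 11, 15}

/-- Notation for the achievement set of `xs`. -/
def E : Set ℝ := ach xs

theorem norm_summable : Summable fun n => ‖xs n‖ :=
  xs_summable.norm

theorem isCompact_E : IsCompact E :=
  Pool.Agent.Results.MP_69f3e4_an.PlanarDichotomy.isCompact_achievementSet norm_summable

theorem zero_mem : (0 : ℝ) ∈ E := ⟨fun _ => false, by simp⟩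

theorem top_mem : (15 / 7 : ℝ) ∈ E := ⟨fun _ => true, by simp [xs_tsum]⟩

theorem summable_e {x : ℕ → ℝ} (hx : Summable fun n => ‖x n‖) (e : ℕ → Bool) :
    Summable fun n => if e n = true then x n else 0 :=
  Pool.Agent.Results.MP_69f3e4_an.PlanarDichotomy.summable_sub hx e

theorem nonneg_of_mem {y : ℝ} (hy : y ∈ E) : 0 ≤ y := by
  obtain ⟨e, rfl⟩ := hy
  refine tsum_nonneg fun n => ?_
  split_ifs
  · exact (xs_pos n).le
  · exact le_rfl

theorem symm_mem {y : ℝ} (hy : y ∈ E) : 15 / 7 - y ∈ E := by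
  obtain ⟨e, rfl⟩ := hy
  refine ⟨fun n => !(e n), ?_⟩
  rw [← xs_tsum, ← xs_summable.tsum_sub (summable_e norm_summable e)]
  refine tsum_congr fun n => ?_
  rcases h : e n with _ | _ <;> simp [h]

theorem le_of_mem {y : ℝ} (hy : y ∈ E) : y ≤ 15 / 7 := by
  have := nonneg_of_mem (symm_mem hy)
  linarith

theorem mem_ach_iff {x x' : ℕ → ℝ} (hx : Summable fun n => ‖x n‖) (hx' : ∀ k, x (k + 1) = x' k)
    (y : ℝ) : y ∈ ach x ↔ y ∈ ach x' ∨ y - x 0 ∈ ach x' := by
  have e : (fun k => x (k + 1)) = x' := funext hx'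
  subst e
  have h : y ∈ ach x ↔ y ∈ (Pool.Agent.Results.MP_69f3e4_an.PlanarDichotomy.achievementSet x) :=
    Iff.rfl
  rw [h, Pool.Agent.Results.MP_69f3e4_an.PlanarDichotomy.achievementSet_eq hx]
  constructor
  · rintro (h | ⟨t, ht, rfl⟩)
    · exact Or.inl h
    · right
      change x 0 + t - x 0 ∈ _
      rw [add_sub_cancel_left]
      exact ht
  · rintro (h | h)
    · exact Or.inl h
    · exact Or.inr ⟨_, h, by simp⟩

theorem ach_smul {x' : ℕ → ℝ} (hx' : ∀ k, xs (k + 3) = x' k) (y : ℝ) :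
    y ∈ ach x' ↔ 8 * y ∈ E := by
  have hx2 : ∀ k, x' k = 8⁻¹ * xs k := fun k => by rw [← hx', xs_add_three]
  constructor
  · rintro ⟨e, rfl⟩
    refine ⟨e, ?_⟩
    rw [← tsum_mul_left]
    refine tsum_congr fun n => ?_
    split_ifs
    · rw [hx2]; ring
    · simp
  · rintro ⟨e, he⟩
    refine ⟨e, ?_⟩
    have : y = 8⁻¹ * (8 * y) := by ring
    rw [this, he, ← tsum_mul_left]
    refine tsum_congr fun n => ?_
    split_ifs
    · rw [hx2]
    · simp

theorem mem_E_iff (y : ℝ) : y ∈ E ↔ ∃ d ∈ D, 8 * y - d ∈ E := by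
  have s0 := norm_summable
  have s1 : Summable fun n => ‖xs (n + 1)‖ := (summable_nat_add_iff 1).2 s0
  have s2 : Summable fun n => ‖xs (n + 2)‖ := (summable_nat_add_iff 2).2 s0
  have e0 : xs 0 = 6 / 8 := by simpa using (xs_block 0).1
  have e1 : xs 1 = 5 / 8 := by simpa using (xs_block 0).2.1
  have e2 : xs 2 = 4 / 8 := by simpa using (xs_block 0).2.2
  obtain ⟨x1, hx1⟩ : ∃ x1 : ℕ → ℝ, ∀ k, xs (k + 1) = x1 k := ⟨_, fun _ => rfl⟩
  obtain ⟨x2, hx2⟩ : ∃ x2 : ℕ → ℝ, ∀ k, xs (k + 2) = x2 k := ⟨_, fun _ => rfl⟩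
  obtain ⟨x3, hx3⟩ : ∃ x3 : ℕ → ℝ, ∀ k, xs (k + 3) = x3 k := ⟨_, fun _ => rfl⟩
  have e1' : x1 0 = 5 / 8 := by rw [← hx1]; exact e1
  have e2' : x2 0 = 4 / 8 := by rw [← hx2]; exact e2
  have s1' : Summable fun n => ‖x1 n‖ := s1.congr fun n => by rw [hx1]
  have s2' : Summable fun n => ‖x2 n‖ := s2.congr fun n => by rw [hx2]
  have i0 := fun z => mem_ach_iff s0 hx1 z
  have i1 := fun z => mem_ach_iff s1' (x' := x2) (fun k => by rw [← hx1, ← hx2]) z
  have i2 := fun z => mem_ach_iff s2' (x' := x3) (fun k => by rw [← hx2, ← hx3]) z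
  have i3 := fun z => ach_smul hx3 z
  have key : y ∈ E ↔ y ∈ ach xs := Iff.rfl
  rw [key, i0, i1, i1, i2, i2, i2, i2]
  simp only [i3, e0, e1', e2', D, Finset.mem_insert, Finset.mem_singleton, exists_eq_or_imp,
    exists_eq_left]
  push_cast
  have q1 : 8 * (y - 4 / 8) = 8 * y - 4 := by ring
  have q2 : 8 * (y - 5 / 8) = 8 * y - 5 := by ring
  have q3 : 8 * (y - 5 / 8 - 4 / 8) = 8 * y - 9 := by ring
  have q4 : 8 * (y - 6 / 8) = 8 * y - 6 := by ring
  have q5 : 8 * (y - 6 / 8 - 4 / 8) = 8 * y - 10 := by ring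
  have q6 : 8 * (y - 6 / 8 - 5 / 8) = 8 * y - 11 := by ring
  have q7 : 8 * (y - 6 / 8 - 5 / 8 - 4 / 8) = 8 * y - 15 := by ring
  have q0 : 8 * y - 0 = 8 * y := by ring
  rw [q0, q1, q2, q3, q4, q5, q6, q7]
  tauto

/-- Finite digit expansions as integers. -/
def DK : ℕ → Set ℤ
  | 0 => {0}
  | K + 1 => {n | ∃ m ∈ DK K, ∃ d ∈ D, n = 8 * m + d}

theorem mem_E_iff_pow (K : ℕ) (y : ℝ) : y ∈ E ↔ ∃ m ∈ DK K, 8 ^ K * y - m ∈ E := by
  induction K with
  | zero => simp [DK]
  | succ K ih =>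
    rw [ih]
    constructor
    · rintro ⟨m, hm, h⟩
      rw [mem_E_iff] at h
      obtain ⟨d, hd, h⟩ := h
      refine ⟨8 * m + d, ⟨m, hm, d, hd, rfl⟩, ?_⟩
      have : (8 : ℝ) ^ (K + 1) * y - ((8 * m + d : ℤ) : ℝ) = 8 * (8 ^ K * y - m) - d := by
        push_cast; ring
      rw [this]; exact h
    · rintro ⟨_, ⟨m, hm, d, hd, rfl⟩, h⟩
      refine ⟨m, hm, ?_⟩
      rw [mem_E_iff]
      refine ⟨d, hd, ?_⟩
      have : (8 : ℝ) ^ (K + 1) * y - ((8 * m + d : ℤ) : ℝ) = 8 * (8 ^ K * y - m) - d := by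
        push_cast; ring
      rw [← this]; exact h

theorem mem_of_DK {K : ℕ} {m : ℤ} (hm : m ∈ DK K) {z : ℝ} (hz : z ∈ E) : (m + z) / 8 ^ K ∈ E := by
  rw [mem_E_iff_pow K]
  refine ⟨m, hm, ?_⟩
  have : (0 : ℝ) < 8 ^ K := by positivity
  have h2 : (8 : ℝ) ^ K * ((m + z) / 8 ^ K) - m = z := by field_simp; ring
  rw [h2]; exact hz

/-! ### Interior points -/

theorem exists_digit (n : ℤ) : ∃ d ∈ D, (8 : ℤ) ∣ n - d := by
  have h : n % 8 = 0 ∨ n % 8 = 1 ∨ n % 8 = 2 ∨ n % 8 = 3 ∨ n % 8 = 4 ∨ n % 8 = 5 ∨ n % 8 = 6 ∨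
    n % 8 = 7 := by omega
  rcases h with h | h | h | h | h | h | h | h
  · exact ⟨0, by simp [D], by omega⟩
  · exact ⟨9, by simp [D], by omega⟩
  · exact ⟨10, by simp [D], by omega⟩
  · exact ⟨11, by simp [D], by omega⟩
  · exact ⟨4, by simp [D], by omega⟩
  · exact ⟨5, by simp [D], by omega⟩
  · exact ⟨6, by simp [D], by omega⟩
  · exact ⟨15, by simp [D], by omega⟩

theorem exists_DK (K : ℕ) (n : ℤ) : ∃ m ∈ DK K, ∃ z : ℤ, n = m + 8 ^ K * z := by
  induction K generalizing n with
  | zero => exact ⟨0, rfl, n, by simp⟩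
  | succ K ih =>
    obtain ⟨d, hd, q, hq⟩ := exists_digit n
    obtain ⟨m, hm, z, hz⟩ := ih q
    refine ⟨8 * m + d, ⟨m, hm, d, hd, rfl⟩, z, ?_⟩
    rw [pow_succ]
    have : n = 8 * q + d := by linarith
    rw [this, hz]; ring

theorem interior_nonempty : (interior E).Nonempty := by
  have hcl : IsClosed (range ((↑) : ℤ → ℝ) + E) :=
    (Int.isClosedEmbedding_coe_real.isClosed_range).add_right_of_isCompact isCompact_E
  have hdense : range ((↑) : ℤ → ℝ) + E = univ := by
    rw [← hcl.closure_eq, ← dense_iff_closure_eq]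
    intro y
    rw [Metric.mem_closure_iff]
    intro η hη
    obtain ⟨K, hK⟩ := exists_pow_lt_of_lt_one hη (show (8⁻¹ : ℝ) < 1 by norm_num)
    obtain ⟨m, hm, z, hz⟩ := exists_DK K ⌊8 ^ K * y⌋
    refine ⟨z + m / 8 ^ K, ?_, ?_⟩
    · refine Set.add_mem_add ⟨z, rfl⟩ ?_
      have := mem_of_DK hm zero_mem
      simpa using this
    · have h8 : (0 : ℝ) < 8 ^ K := by positivity
      have h1 : (z : ℝ) + m / 8 ^ K = (⌊8 ^ K * y⌋ : ℝ) / 8 ^ K := by
        rw [hz]; push_cast; field_simp; ring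
      rw [h1, Real.dist_eq]
      have h2 := Int.floor_le (8 ^ K * y)
      have h3 := Int.lt_floor_add_one (8 ^ K * y)
      have h4 : y - (⌊8 ^ K * y⌋ : ℝ) / 8 ^ K = (8 ^ K * y - ⌊8 ^ K * y⌋) * (8⁻¹) ^ K := by
        rw [inv_pow]; field_simp
      rw [h4, abs_of_nonneg (by have : (0 : ℝ) < (8⁻¹) ^ K := by positivity
                                nlinarith)]
      have h5 : (0 : ℝ) < (8⁻¹) ^ K := by positivity
      nlinarith
  have hU : ⋃ z : ℤ, (fun t : ℝ => (z : ℝ) + t) '' E = univ := by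
    rw [← hdense]
    ext y
    rw [mem_iUnion, Set.mem_add]
    constructor
    · rintro ⟨z, t, ht, rfl⟩
      exact ⟨z, ⟨z, rfl⟩, t, ht, rfl⟩
    · rintro ⟨_, ⟨z, rfl⟩, t, ht, rfl⟩
      exact ⟨z, t, ht, rfl⟩
  obtain ⟨z, hz⟩ := nonempty_interior_of_iUnion_of_closed (fun z : ℤ =>
    (isCompact_E.image (continuous_const.add continuous_id)).isClosed) hU
  have h1 := (Homeomorph.addLeft (z : ℝ)).image_interior E
  have h2 : interior ((fun t : ℝ => (z : ℝ) + t) '' E) = (fun t : ℝ => (z : ℝ) + t) '' interior E :=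
    h1.symm
  change (interior ((fun t : ℝ => (z : ℝ) + t) '' E)).Nonempty at hz
  rw [h2] at hz
  exact hz.of_image

/-! ### Gaps -/

theorem no_mem_gap {θ : ℝ} (h1 : 15 / 56 < θ) (h2 : θ < 1 / 2) : θ ∉ E := by
  intro h
  rw [mem_E_iff] at h
  obtain ⟨d, hd, h⟩ := h
  have hd' : d = 0 ∨ 4 ≤ d := by
    simp only [D, Finset.mem_insert, Finset.mem_singleton] at hd
    omega
  rcases hd' with rfl | hd'
  · have := le_of_mem h
    push_cast at this
    linarith
  · have := nonneg_of_mem h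
    have h4 : (4 : ℝ) ≤ d := by exact_mod_cast hd'
    linarith

/-- `b` belongs to `E` and is a limit of points off `E` on both sides. -/
def P (b : ℝ) : Prop :=
  b ∈ E ∧ ∀ η : ℝ, 0 < η → (∃ g, g ∉ E ∧ b - η < g ∧ g < b) ∧ (∃ g, g ∉ E ∧ b < g ∧ g < b + η)

theorem P_symm {b : ℝ} (h : P b) : P (15 / 7 - b) := by
  refine ⟨symm_mem h.1, fun η hη => ?_⟩
  obtain ⟨⟨g, hg, hg1, hg2⟩, ⟨k, hk, hk1, hk2⟩⟩ := h.2 η hη
  refine ⟨⟨15 / 7 - k, fun h' => hk ?_, by linarith, by linarith⟩,
    ⟨15 / 7 - g, fun h' => hg ?_, by linarith, by linarith⟩⟩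
  · have := symm_mem h'; rwa [sub_sub_cancel] at this
  · have := symm_mem h'; rwa [sub_sub_cancel] at this

theorem P_component {b : ℝ} (h : P b) : connectedComponentIn E b = {b} := by
  refine Subset.antisymm (fun y hy => ?_) (singleton_subset_iff.2 (mem_connectedComponentIn h.1))
  have hc : IsPreconnected (connectedComponentIn E b) := isPreconnected_connectedComponentIn
  have hsub : connectedComponentIn E b ⊆ E := connectedComponentIn_subset E b
  have hb : b ∈ connectedComponentIn E b := mem_connectedComponentIn h.1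
  by_contra hne
  rcases lt_or_gt_of_ne (show y ≠ b from hne) with hlt | hlt
  · obtain ⟨⟨g, hg, hg1, hg2⟩, -⟩ := h.2 (b - y) (by linarith)
    exact hg (hsub (hc.Icc_subset hy hb ⟨by linarith, hg2.le⟩))
  · obtain ⟨-, ⟨g, hg, hg1, hg2⟩⟩ := h.2 (y - b) (by linarith)
    exact hg (hsub (hc.Icc_subset hb hy ⟨hg1.le, by linarith⟩))

/-- The left end of a gap is a limit of gaps. -/
theorem P_of_gap {b δ : ℝ} (hb : b ∈ E) (hδ : 0 < δ) (hgap : ∀ y ∈ E, ¬ (b < y ∧ y < b + δ)) :
    P b := by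
  refine ⟨hb, fun η hη => ⟨?_, ?_⟩⟩
  · have hmin : 0 < min δ η / 3 := by positivity
    obtain ⟨K, hK⟩ := exists_pow_lt_of_lt_one hmin (show (8⁻¹ : ℝ) < 1 by norm_num)
    have hp : (0 : ℝ) < (8⁻¹) ^ K := by positivity
    have hKδ : (8⁻¹ : ℝ) ^ K < δ / 3 := lt_of_lt_of_le hK (by
      have := min_le_left δ η; linarith)
    have hKη : (8⁻¹ : ℝ) ^ K < η / 3 := lt_of_lt_of_le hK (by
      have := min_le_right δ η; linarith)
    have h8 : (0 : ℝ) < 8 ^ K := by positivity
    have hinv : (8⁻¹ : ℝ) ^ K * 8 ^ K = 1 := by rw [inv_pow]; field_simp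
    have hdiv : ∀ t : ℝ, t / 8 ^ K = t * (8⁻¹ : ℝ) ^ K := by
      intro t; rw [inv_pow]; field_simp
    obtain ⟨m, hm, hmE⟩ := (mem_E_iff_pow K b).1 hb
    have hm1 := nonneg_of_mem hmE
    have hm2 := le_of_mem hmE
    have hM := mem_of_DK hm top_mem
    have hbM : b = (m + 15 / 7) / 8 ^ K := by
      by_contra hne
      apply hgap _ hM
      have e1 : b = (8 ^ K * b) * (8⁻¹ : ℝ) ^ K := by
        rw [mul_comm, ← mul_assoc, hinv, one_mul]
      have e2 : b ≤ (m + 15 / 7) / 8 ^ K := by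
        rw [le_div_iff₀ h8]; linarith
      refine ⟨lt_of_le_of_ne e2 hne, ?_⟩
      rw [hdiv]
      have h9 : (m + 15 / 7 : ℝ) * (8⁻¹) ^ K ≤ (8 ^ K * b + 15 / 7) * (8⁻¹) ^ K := by
        apply mul_le_mul_of_nonneg_right _ hp.le
        linarith
      have h10 : (8 ^ K * b + 15 / 7) * (8⁻¹ : ℝ) ^ K = b + 15 / 7 * (8⁻¹) ^ K := by
        rw [add_mul, ← e1]
      rw [h10] at h9
      linarith
    refine ⟨b - 3 / 8 * (8⁻¹) ^ K, ?_, by linarith, by linarith⟩
    intro hy
    obtain ⟨m', hm', hmE'⟩ := (mem_E_iff_pow K _).1 hy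
    have hM' := mem_of_DK hm' top_mem
    have h81 : (8 : ℝ) ^ K * (b - 3 / 8 * (8⁻¹) ^ K) = m + 15 / 7 - 3 / 8 := by
      rw [mul_sub, hbM]
      have : (8 : ℝ) ^ K * (3 / 8 * (8⁻¹) ^ K) = 3 / 8 * ((8⁻¹) ^ K * 8 ^ K) := by ring
      rw [this, hinv]
      field_simp
    rw [h81] at hmE'
    rcases lt_trichotomy m m' with hlt | heq | hgt
    · -- the top of the piece of `m'` lies in the gap
      have h1 : (m : ℝ) + 1 ≤ m' := by exact_mod_cast hlt
      have h2 := nonneg_of_mem hmE'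
      apply hgap _ hM'
      constructor
      · rw [hbM]
        rw [div_lt_div_iff_of_pos_right h8]
        linarith
      · rw [hbM, hdiv, hdiv]
        have h3 : ((m' : ℝ) + 15 / 7) * (8⁻¹) ^ K ≤ (m + 15 / 7 + 3) * (8⁻¹) ^ K := by
          apply mul_le_mul_of_nonneg_right _ hp.le
          linarith
        have h4 : (m + 15 / 7 + 3 : ℝ) * (8⁻¹) ^ K = (m + 15 / 7) * (8⁻¹) ^ K + 3 * (8⁻¹) ^ K := by
          ring
        linarith
    · rw [← heq] at hmE'
      have h1 := symm_mem hmE'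
      have h2 : (15 / 7 : ℝ) - (m + 15 / 7 - 3 / 8 - m) = 3 / 8 := by ring
      rw [h2] at h1
      exact no_mem_gap (by norm_num) (by norm_num) h1
    · have h1 : (m' : ℝ) + 1 ≤ m := by exact_mod_cast hgt
      have h2 := le_of_mem hmE'
      linarith
  · have hmin : 0 < min δ η := lt_min hδ hη
    have h1 := min_le_left δ η
    have h2 := min_le_right δ η
    exact ⟨b + min δ η / 2, fun h => hgap _ h ⟨by linarith, by linarith⟩, by linarith, by linarith⟩

/-- The right end of a maximal interval is a limit from the right of one-point components. -/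
theorem right_end {a b : ℝ} (hab : a < b) (hsub : Icc a b ⊆ E) (hmax : ∀ c, b < c → ¬ Icc a c ⊆ E)
    {η : ℝ} (hη : 0 < η) : ∃ u, P u ∧ b < u ∧ u < b + η := by
  have hb : b ∈ E := hsub ⟨hab.le, le_rfl⟩
  have hacc : ∀ δ : ℝ, 0 < δ → ∃ y ∈ E, b < y ∧ y < b + δ := by
    intro δ hδ
    by_contra h
    push Not at h
    have hP : P b := P_of_gap hb hδ fun y hy h' => absurd h'.2 (not_lt.2 (h y hy h'.1))
    obtain ⟨⟨g, hg, hg1, hg2⟩, -⟩ := hP.2 (b - a) (by linarith)
    exact hg (hsub ⟨by linarith, hg2.le⟩)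
  obtain ⟨e, he, he1, he2⟩ := hacc η hη
  obtain ⟨g, hg1, hg2, hg⟩ : ∃ g, b < g ∧ g < e ∧ g ∉ E := by
    by_contra h
    push Not at h
    apply hmax e he1
    intro t ht
    rcases le_or_gt t b with h1 | h1
    · exact hsub ⟨ht.1, h1⟩
    · rcases eq_or_lt_of_le ht.2 with h2 | h2
      · rw [h2]; exact he
      · exact h t h1 h2
  obtain ⟨e', he', he1', he2'⟩ := hacc (g - b) (by linarith)
  have hcomp : IsCompact (E ∩ Iic g) := isCompact_E.inter_right isClosed_Iic
  have hne : (E ∩ Iic g).Nonempty := ⟨e', he', by rw [mem_Iic]; linarith⟩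
  obtain ⟨u, ⟨huE, hug⟩, humax⟩ := hcomp.exists_isGreatest hne
  have hu1 : e' ≤ u := humax ⟨he', by rw [mem_Iic]; linarith⟩
  have hug' : u < g := lt_of_le_of_ne hug fun h => hg (h ▸ huE)
  refine ⟨u, P_of_gap huE (show 0 < g - u by linarith) ?_, by linarith, by linarith⟩
  rintro y hy ⟨h1, h2⟩
  have : y ≤ u := humax ⟨hy, by rw [mem_Iic]; linarith⟩
  linarith

theorem left_end {a b : ℝ} (hab : a < b) (hsub : Icc a b ⊆ E) (hmax : ∀ c, c < a → ¬ Icc c b ⊆ E)
    {η : ℝ} (hη : 0 < η) : ∃ u, P u ∧ a - η < u ∧ u < a := by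
  obtain ⟨u, hu, hu1, hu2⟩ := right_end (a := 15 / 7 - b) (b := 15 / 7 - a) (by linarith)
    (fun t ht => by
      have := symm_mem (hsub (show 15 / 7 - t ∈ Icc a b from ⟨by linarith [ht.2], by linarith [ht.1]⟩))
      rwa [sub_sub_cancel] at this)
    (fun c hc h => hmax (15 / 7 - c) (by linarith) fun t ht => by
      have := symm_mem (h (show 15 / 7 - t ∈ Icc (15 / 7 - b) c from
        ⟨by linarith [ht.2], by linarith [ht.1]⟩))
      rwa [sub_sub_cancel] at this) hη
  exact ⟨15 / 7 - u, P_symm hu, by linarith, by linarith⟩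

theorem isCantorval_E : IsCantorval E := by
  refine ⟨⟨0, zero_mem⟩, isCompact_E, ?_, ?_⟩
  · exact Pool.Agent.Results.MP_69f3e4_an.PlanarDichotomy.closure_interior norm_summable
      interior_nonempty
  · intro x hx a b hab hcomp
    have hsub : Icc a b ⊆ E := by rw [← hcomp]; exact connectedComponentIn_subset E x
    have hxab : x ∈ Icc a b := by rw [← hcomp]; exact mem_connectedComponentIn hx
    have hmax : ∀ c d : ℝ, c ≤ a → b ≤ d → Icc c d ⊆ E → Icc c d ⊆ Icc a b := by
      intro c d hc hd h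
      rw [← hcomp]
      exact isPreconnected_Icc.subset_connectedComponentIn
        ⟨hc.trans hxab.1, hxab.2.trans hd⟩ h
    have hone : ∀ u, P u → u ∈ onePoint E := fun u hu => ⟨hu.1, P_component hu⟩
    constructor
    · rw [accPt_iff_nhds]
      intro U hU
      obtain ⟨η, hη, hball⟩ := Metric.mem_nhds_iff.1 hU
      obtain ⟨u, hu, hu1, hu2⟩ := left_end hab hsub (fun c hc h => by
        have := hmax c b hc.le le_rfl h (⟨le_rfl, by linarith⟩ : c ∈ Icc c b)
        linarith [this.1]) hη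
      refine ⟨u, ⟨hball ?_, hone u hu⟩, hu2.ne⟩
      rw [Metric.mem_ball, Real.dist_eq, abs_lt]
      constructor <;> linarith
    · rw [accPt_iff_nhds]
      intro U hU
      obtain ⟨η, hη, hball⟩ := Metric.mem_nhds_iff.1 hU
      obtain ⟨u, hu, hu1, hu2⟩ := right_end hab hsub (fun c hc h => by
        have := hmax a c le_rfl hc.le h (⟨by linarith, le_rfl⟩ : c ∈ Icc a c)
        linarith [this.2]) hη
      refine ⟨u, ⟨hball ?_, hone u hu⟩, hu1.ne'⟩
      rw [Metric.mem_ball, Real.dist_eq, abs_lt]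
      constructor <;> linarith

/-! ### Deleting infinitely many terms -/

theorem volume_le (A : Set ℕ) [DecidablePred (· ∈ A)] (K : ℕ) :
    volume (achDel xs A) ≤ 2 ^ ((Finset.range (3 * K)).filter (· ∉ A)).card *
      ENNReal.ofReal ((8⁻¹) ^ K * (15 / 7)) := by
  classical
  set F := (Finset.range (3 * K)).filter (· ∉ A) with hF
  have hcover : achDel xs A ⊆ ⋃ s ∈ F.powerset, Icc (∑ n ∈ s, xs n)
      (∑ n ∈ s, xs n + (8⁻¹) ^ K * (15 / 7)) := by
    rintro _ ⟨e, he, rfl⟩
    rw [mem_iUnion₂]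
    refine ⟨F.filter fun n => e n = true, ?_, ?_⟩
    · exact Finset.mem_powerset.2 (Finset.filter_subset _ _)
    · have hs := summable_e norm_summable e
      have h1 := hs.sum_add_tsum_nat_add (3 * K)
      have h2 : ∑ n ∈ Finset.range (3 * K), (if e n = true then xs n else 0) =
          ∑ n ∈ F.filter fun n => e n = true, xs n := by
        rw [← Finset.sum_filter]
        refine Finset.sum_congr ?_ fun _ _ => rfl
        ext n
        simp only [hF, Finset.mem_filter]
        constructor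
        · rintro ⟨h3, h4⟩
          refine ⟨⟨h3, fun h5 => ?_⟩, h4⟩
          rw [he n h5] at h4
          exact absurd h4 (by simp)
        · rintro ⟨⟨h3, -⟩, h4⟩
          exact ⟨h3, h4⟩
      rw [h2] at h1
      have h3 : 0 ≤ ∑' n, (if e (n + 3 * K) = true then xs (n + 3 * K) else 0) := by
        refine tsum_nonneg fun n => ?_
        split_ifs
        · exact (xs_pos _).le
        · exact le_rfl
      have h4 : ∑' n, (if e (n + 3 * K) = true then xs (n + 3 * K) else 0) ≤
          (8⁻¹) ^ K * (15 / 7) := by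
        rw [← xs_tail_block K]
        have g1 : Summable fun n => if e (n + 3 * K) = true then xs (n + 3 * K) else 0 :=
          (summable_nat_add_iff (f := fun n => if e n = true then xs n else 0) (3 * K)).2 hs
        have g2 : Summable fun n => xs (n + 3 * K) :=
          (summable_nat_add_iff (f := xs) (3 * K)).2 xs_summable
        refine g1.tsum_le_tsum (fun n => ?_) g2
        by_cases h5 : e (n + 3 * K) = true
        · rw [if_pos h5]
        · rw [if_neg h5]; exact (xs_pos _).le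
      rw [mem_Icc]
      constructor <;> linarith
  calc volume (achDel xs A) ≤ volume (⋃ s ∈ F.powerset, Icc (∑ n ∈ s, xs n)
      (∑ n ∈ s, xs n + (8⁻¹) ^ K * (15 / 7))) := measure_mono hcover
    _ ≤ ∑ s ∈ F.powerset, volume (Icc (∑ n ∈ s, xs n) (∑ n ∈ s, xs n + (8⁻¹) ^ K * (15 / 7))) :=
        measure_biUnion_finset_le _ _
    _ = ∑ s ∈ F.powerset, ENNReal.ofReal ((8⁻¹) ^ K * (15 / 7)) := by
        refine Finset.sum_congr rfl fun s _ => ?_
        rw [Real.volume_Icc]; congr 1; ring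
    _ = _ := by
        rw [Finset.sum_const, Finset.card_powerset, nsmul_eq_mul]
        push_cast
        rfl

theorem volume_zero {A : Set ℕ} (hA : A.Infinite) : volume (achDel xs A) = 0 := by
  classical
  have key : ∀ j : ℕ, volume (achDel xs A) ≤ ENNReal.ofReal ((2⁻¹) ^ j * (15 / 7)) := by
    intro j
    obtain ⟨B, hB, hBj⟩ := hA.exists_subset_card_eq j
    obtain ⟨K, hK⟩ : ∃ K, B ⊆ Finset.range (3 * K) := by
      refine ⟨B.sup id + 1, fun n hn => ?_⟩
      have := Finset.le_sup (f := id) hn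
      simp only [id] at this
      rw [Finset.mem_range]; omega
    refine (volume_le A K).trans ?_
    have h1 : ((Finset.range (3 * K)).filter (· ∉ A)).card + j ≤ 3 * K := by
      rw [← hBj, ← Finset.card_union_of_disjoint]
      · calc _ ≤ (Finset.range (3 * K)).card := by
              refine Finset.card_le_card (Finset.union_subset (Finset.filter_subset _ _) hK)
          _ = 3 * K := Finset.card_range _
      · rw [Finset.disjoint_left]
        intro n hn hn'
        exact (Finset.mem_filter.1 hn).2 (hB hn')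
    have h2 : (2 : ENNReal) ^ ((Finset.range (3 * K)).filter (· ∉ A)).card =
        ENNReal.ofReal (2 ^ ((Finset.range (3 * K)).filter (· ∉ A)).card) := by
      rw [ENNReal.ofReal_pow (by norm_num)]; simp
    rw [h2, ← ENNReal.ofReal_mul (by positivity)]
    refine ENNReal.ofReal_le_ofReal ?_
    generalize ((Finset.range (3 * K)).filter (· ∉ A)).card = q at h1
    have h3 : (2 : ℝ) ^ q * (8⁻¹) ^ K ≤ (2⁻¹) ^ j := by
      have h8 : (8 : ℝ) ^ K = 2 ^ (3 * K) := by rw [pow_mul]; norm_num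
      rw [inv_pow, inv_pow, h8, mul_inv_le_iff₀ (by positivity), inv_mul_eq_div,
        le_div_iff₀ (by positivity), ← pow_add]
      exact pow_le_pow_right₀ (by norm_num) h1
    nlinarith
  have hlim : Tendsto (fun j : ℕ => ENNReal.ofReal ((2⁻¹) ^ j * (15 / 7))) atTop (𝓝 0) := by
    have h1 : Tendsto (fun j : ℕ => ((2⁻¹ : ℝ)) ^ j * (15 / 7)) atTop (𝓝 (0 * (15 / 7))) :=
      (tendsto_pow_atTop_nhds_zero_of_lt_one (by norm_num) (by norm_num)).mul_const _
    rw [zero_mul] at h1
    have h2 := ENNReal.tendsto_ofReal h1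
    rwa [ENNReal.ofReal_zero] at h2
  exact le_antisymm (ge_of_tendsto' hlim key) bot_le

theorem isMinimal_xs : IsMinimal xs := by
  intro A hA
  refine ⟨fun φ => ?_⟩
  have hint : (interior (ach xs)).Nonempty := interior_nonempty
  obtain ⟨p, hp⟩ := hint
  obtain ⟨η, hη, hball⟩ := Metric.isOpen_iff.1 isOpen_interior p hp
  have hIcc : Icc p (p + η / 2) ⊆ ach xs := by
    intro t ht
    apply interior_subset
    apply hball
    rw [Metric.mem_ball, Real.dist_eq, abs_lt]
    constructor <;> linarith [ht.1, ht.2]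
  let h : Icc p (p + η / 2) → ℝ := fun t => ((φ.symm ⟨t, hIcc t.2⟩ : achDel xs A) : ℝ)
  have hcont : Continuous h := by
    refine continuous_subtype_val.comp (φ.symm.continuous.comp ?_)
    exact Continuous.subtype_mk continuous_subtype_val _
  have hinj : Function.Injective h := by
    intro s t hst
    have h1 := Subtype.ext hst
    have h2 := φ.symm.injective h1
    have h3 : (s : ℝ) = t := congrArg (fun w : ach xs => (w : ℝ)) h2
    exact Subtype.ext h3
  have : PreconnectedSpace (Icc p (p + η / 2)) :=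
    Subtype.preconnectedSpace isPreconnected_Icc
  have hpre : IsPreconnected (range h) := isPreconnected_range hcont
  have hsub : range h ⊆ achDel xs A := by
    rintro _ ⟨t, rfl⟩
    exact (φ.symm ⟨t, hIcc t.2⟩).2
  let s : Icc p (p + η / 2) := ⟨p, le_rfl, by linarith⟩
  let t : Icc p (p + η / 2) := ⟨p + η / 2, by linarith, le_rfl⟩
  have hst : s ≠ t := by
    intro h'
    have := congrArg Subtype.val h'
    simp only [s, t] at this
    linarith
  have hne : h s ≠ h t := fun h' => hst (hinj h')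
  have hzero := volume_zero hA
  rcases lt_or_gt_of_ne hne with hlt | hlt
  · have h1 : Icc (h s) (h t) ⊆ achDel xs A :=
      (hpre.Icc_subset ⟨s, rfl⟩ ⟨t, rfl⟩).trans hsub
    have h2 := measure_mono (μ := volume) h1
    rw [hzero, Real.volume_Icc, nonpos_iff_eq_zero, ENNReal.ofReal_eq_zero] at h2
    linarith
  · have h1 : Icc (h t) (h s) ⊆ achDel xs A :=
      (hpre.Icc_subset ⟨t, rfl⟩ ⟨s, rfl⟩).trans hsub
    have h2 := measure_mono (μ := volume) h1
    rw [hzero, Real.volume_Icc, nonpos_iff_eq_zero, ENNReal.ofReal_eq_zero] at h2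
    linarith

theorem infinite_set : {n : ℕ | xs n < tail xs (n + 1)}.Infinite := by
  refine Set.infinite_of_injective_forall_mem (f := fun k : ℕ => 3 * k)
    (fun a b h => by simpa using h) fun k => ?_
  have hs : Summable fun n => xs (n + 3 * (k + 1)) := (summable_nat_add_iff _).2 xs_summable
  have h1 : tail xs (3 * k + 1) = xs (3 * k + 2) + (8⁻¹) ^ (k + 1) * (15 / 7) := by
    rw [tail, ← xs_tail_block (k + 1)]
    have hs' : Summable fun j => xs (3 * k + 1 + 1 + j) := by
      have := (summable_nat_add_iff (3 * k + 1 + 1)).2 xs_summable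
      refine this.congr fun n => ?_
      rw [add_comm]
    rw [hs'.tsum_eq_zero_add]
    congr 1
    refine tsum_congr fun n => ?_
    congr 1
    ring
  change xs (3 * k) < tail xs (3 * k + 1)
  rw [h1, (xs_block k).1, (xs_block k).2.2, inv_pow]
  have h8 : (0 : ℝ) < 8 ^ (k + 1) := by positivity
  rw [div_eq_mul_inv, div_eq_mul_inv]
  have : (0 : ℝ) < (8 ^ (k + 1))⁻¹ := by positivity
  nlinarith

/-- There is a nonincreasing summable sequence of positive reals whose achievement set is a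
Cantorval, which is a minimal representation, and for which `x n < r (n + 1)` infinitely often. -/
theorem result : ∃ x : ℕ → ℝ, (∀ n, 0 < x n) ∧ Antitone x ∧ Summable x ∧ IsCantorval (ach x) ∧
    IsMinimal x ∧ {n : ℕ | x n < tail x (n + 1)}.Infinite :=
  ⟨xs, xs_pos, xs_antitone, xs_summable, isCantorval_E, isMinimal_xs, infinite_set⟩

end Pool.Agent.Results.MP_61d686_an.MinimalCantorval
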